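import Mathlib
import Pool.Agent.R415.CH.Final

/-!
# Maximality of the Chebyshev hyperelliptic curves `y² = φ_ℓ(x)` in characteristic 1 mod 4

For distinct primes `ℓ ≡ p ≡ 1 (mod 4)`: if the curve is maximal over a field with `p ^ (2f)`
elements, then `p` is a primitive root modulo `ℓ`.
-/

set_option autoImplicit false

namespace Pool.Agent.Results.MP_a01b15_nt.PrimitiveRoot

open Polynomial

/-- The number of points over `F` of the smooth projective model of `y² = φ(x)`, where `φ` is a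
separable polynomial of odd degree: the solutions of the affine equation in `F`, and the unique
point at infinity. -/
noncomputable def numPoints (F : Type) [Field F] (φ : F[X]) : ℕ :=
  Nat.card {v : F × F // v.2 ^ 2 = φ.eval v.1} + 1

/-- `H_ℓ : y² = φ_ℓ(x)` of genus `(ℓ - 1) / 2` is maximal over `F`, a field with `q ^ 2`
elements: it has `q ^ 2 + 1 + 2 g q` points over `F`. Here `dickson 1 1 ℓ` is the Dickson
polynomial over `F`, the reduction of the integral polynomial with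
`φ_ℓ(t + 1/t) = t ^ ℓ + 1 / t ^ ℓ`. -/
def IsMaximalOver (ℓ : ℕ) (F : Type) [Field F] (q : ℕ) : Prop :=
  Nat.card F = q ^ 2 ∧
    numPoints F (dickson 1 (1 : F) ℓ) = q ^ 2 + 1 + 2 * ((ℓ - 1) / 2) * q

/-- `H_ℓ` is maximal in characteristic `p`: it is maximal over a field with `(p ^ f) ^ 2`
elements, for some `f ≥ 1`. -/
def IsMaximalInChar (ℓ p : ℕ) : Prop :=
  ∃ f : ℕ, 1 ≤ f ∧ ∃ (F : Type) (_ : Field F), IsMaximalOver ℓ F (p ^ f)

theorem result : ∀ ℓ p : ℕ, ℓ.Prime → p.Prime → ℓ ≠ p → ℓ % 4 = 1 → p % 4 = 1 →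
    IsMaximalInChar ℓ p → orderOf (p : ZMod ℓ) = ℓ - 1 := by
  rintro ℓ p hℓ hp hne hℓ4 hp4 ⟨f, hf, F, hF, hcard, hpts⟩
  classical
  have hp0 : 0 < (p ^ f) ^ 2 := pow_pos (pow_pos hp.pos _) _
  have hfin : Finite F := Nat.finite_of_card_ne_zero (by rw [hcard]; exact hp0.ne')
  have hFt : Fintype F := Fintype.ofFinite F
  have hcard' : Fintype.card F = p ^ (2 * f) := by
    rw [← Nat.card_eq_fintype_card, hcard, ← pow_mul, mul_comm]
  have h2 : ringChar F ≠ 2 := by
    intro h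
    have h3 : CharP F 2 := by rw [← h]; exact ringChar.charP F
    obtain ⟨n, _, hn⟩ := FiniteField.card F 2
    rw [hcard'] at hn
    have h4 : 2 ∣ p := by
      apply Nat.prime_two.dvd_of_dvd_pow (n := 2 * f)
      rw [hn]
      exact dvd_pow_self 2 n.ne_zero
    have := (Nat.prime_dvd_prime_iff_eq Nat.prime_two hp).1 h4
    omega
  refine R415.CH.main hℓ hp hne hℓ4 hp4 hf hcard' ?_
  have h3 := R415.CH.points h2 (dickson 1 (1 : F) ℓ)
  unfold numPoints at hpts
  have h4 : (Nat.card {v : F × F // v.2 ^ 2 = (dickson 1 (1 : F) ℓ).eval v.1} : ℤ) + 1 =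
      ((p : ℤ) ^ f) ^ 2 + 1 + 2 * (((ℓ - 1) / 2 : ℕ) : ℤ) * (p : ℤ) ^ f := by
    exact_mod_cast hpts
  have h5 : 2 * (((ℓ - 1) / 2 : ℕ) : ℤ) = (ℓ : ℤ) - 1 := by omega
  have h6 : (Fintype.card F : ℤ) = ((p : ℤ) ^ f) ^ 2 := by
    rw [hcard', mul_comm, pow_mul]
    push_cast
    rfl
  rw [h3, h5, h6] at h4
  linarith

end Pool.Agent.Results.MP_a01b15_nt.PrimitiveRoot
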